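import Pool.Agent.Helper20.NB.Defs
import Pool.Agent.Helper22.AA.Glue

/-! # Families: the fibres over parameters near to integral ones -/

open MvPolynomial Finset

namespace Pool.Agent.Helper81.AA
open Pool.Agent.Helper20.DL Pool.Agent.Helper69.DL Pool.Agent.Helper22.DL Pool.Agent.Helper69.AA
  Pool.Agent.Helper22.AA Pool.Agent.Helper20.NB

variable {σ : Type} {n : ℕ} {v : AbsoluteValue ℂ ℝ}

/-- the polynomials with integral coefficients -/
def intPoly (hv : IsNonarchimedean v) (ι : Type) : Subring (MvPolynomial ι ℂ) where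
  carrier := {S | ∀ m, v (S.coeff m) ≤ 1}
  mul_mem' := by
    classical
    intro a b ha hb m
    rw [coeff_mul]
    refine (Finset.induction_on (antidiagonal m)
      (motive := fun T => v (∑ q ∈ T, coeff q.1 a * coeff q.2 b) ≤ 1) ?_ ?_)
    · rw [sum_empty, map_zero]; exact zero_le_one
    · intro q T hq ih
      rw [sum_insert hq]
      refine (hv _ _).trans (max_le ?_ ih)
      rw [map_mul]
      exact mul_le_one₀ (ha _) (v.nonneg _) (hb _)
  one_mem' := by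
    classical
    intro m
    rw [coeff_one]
    split_ifs
    · rw [map_one]
    · rw [map_zero]; exact zero_le_one
  add_mem' := by
    intro a b ha hb m
    rw [coeff_add]
    exact (hv _ _).trans (max_le (ha m) (hb m))
  zero_mem' := by
    intro m
    rw [coeff_zero, map_zero]
    exact zero_le_one
  neg_mem' := by
    intro a ha m
    rw [coeff_neg, v.map_neg]
    exact ha m

lemma C_mem_intPoly {hv : IsNonarchimedean v} {ι : Type} {c : ℂ} (hc : v c ≤ 1) : (C c : MvPolynomial ι ℂ) ∈ intPoly hv ι := by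
  classical
  intro m
  rw [coeff_C]
  split_ifs
  · exact hc
  · rw [map_zero]; exact zero_le_one

lemma X_mem_intPoly {hv : IsNonarchimedean v} {ι : Type} (i : ι) : (X i : MvPolynomial ι ℂ) ∈ intPoly hv ι := by
  classical
  intro m
  rw [coeff_X]
  split_ifs
  · rw [map_one]
  · rw [map_zero]; exact zero_le_one

/-- a monomial in the coordinates and their inverses -/
noncomputable def monX (a : Fin n → ℤ) : MvPolynomial (Fin n ⊕ Fin n) ℂ :=
  ∏ i, X (Sum.inl i) ^ (a i).toNat * X (Sum.inr i) ^ (-a i).toNat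

lemma eval_monX (a : Fin n → ℤ) (z : Fin n → ℂ) :
    eval (Sum.elim z fun i => (z i)⁻¹) (monX a) = ∏ i, z i ^ a i := by
  rw [monX, map_prod]
  refine prod_congr rfl fun i _ => ?_
  rw [map_mul, map_pow, map_pow, eval_X, eval_X, Sum.elim_inl, Sum.elim_inr]
  rcases le_total 0 (a i) with h | h
  · obtain ⟨k, hk⟩ := Int.eq_ofNat_of_zero_le h
    rw [hk, Int.toNat_natCast, Int.toNat_of_nonpos (by omega), pow_zero, mul_one, zpow_natCast]
  · obtain ⟨k, hk⟩ := Int.eq_ofNat_of_zero_le (neg_nonneg.2 h)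
    have hk' : a i = -(k : ℤ) := by omega
    rw [hk', neg_neg, Int.toNat_natCast, Int.toNat_of_nonpos (by omega), pow_zero, one_mul, zpow_neg,
      zpow_natCast, inv_pow]

lemma monX_mem {hv : IsNonarchimedean v} (a : Fin n → ℤ) : monX a ∈ intPoly hv (Fin n ⊕ Fin n) :=
  prod_mem fun _ _ => mul_mem (pow_mem (X_mem_intPoly _) _) (pow_mem (X_mem_intPoly _) _)

/-- the variables which occur -/
def vset (a b : Fin n → ℤ) : Set (Fin n ⊕ Fin n) :=
  {q | ∀ i, (q = Sum.inl i ∨ q = Sum.inr i) → ¬ (a i = 0 ∧ b i = 0)}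

lemma inl_mem_vset {a b : Fin n → ℤ} {i : Fin n} (h : ¬ (a i = 0 ∧ b i = 0)) : Sum.inl i ∈ vset a b := by
  intro j hj
  rcases hj with hj | hj
  · rw [← Sum.inl.inj hj]; exact h
  · exact absurd hj (by simp)

lemma inr_mem_vset {a b : Fin n → ℤ} {i : Fin n} (h : ¬ (a i = 0 ∧ b i = 0)) : Sum.inr i ∈ vset a b := by
  intro j hj
  rcases hj with hj | hj
  · exact absurd hj (by simp)
  · rw [← Sum.inr.inj hj]; exact h

lemma monX_supported {a b c : Fin n → ℤ} (hc : ∀ i, a i = 0 → b i = 0 → c i = 0) :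
    monX c ∈ supported ℂ (vset a b) := by
  refine prod_mem fun i _ => ?_
  by_cases h : a i = 0 ∧ b i = 0
  · rw [hc i h.1 h.2]
    simp only [Int.toNat_zero, neg_zero, pow_zero, mul_one]
    exact one_mem _
  · exact mul_mem (pow_mem (X_mem_supported.2 (inl_mem_vset h)) _) (pow_mem (X_mem_supported.2 (inr_mem_vset h)) _)

/-- the term of the first order -/
noncomputable def errW (p : ℕ) (H : MvPolynomial (Fin 2) (MvPolynomial σ ℤ)) (s₀ s : σ → ℂ) (a b : Fin n → ℤ) :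
    MvPolynomial (Fin n ⊕ Fin n) ℂ :=
  ∑ m ∈ H.support, C ((aeval s₀ (H.coeff m) - aeval s (H.coeff m)) / p) * monX a ^ m 0 * monX b ^ m 1

lemma eval_errW {p : ℕ} (hp : (p : ℂ) ≠ 0) (H : MvPolynomial (Fin 2) (MvPolynomial σ ℤ)) (s₀ s : σ → ℂ)
    (a b : Fin n → ℤ) (z : Fin n → ℂ) :
    p * eval (Sum.elim z fun i => (z i)⁻¹) (errW p H s₀ s a b) =
      evs s₀ H (∏ i, z i ^ a i) (∏ i, z i ^ b i) - evs s H (∏ i, z i ^ a i) (∏ i, z i ^ b i) := by
  rw [errW, map_sum, evs_eq_sum, evs_eq_sum, ← sum_sub_distrib, mul_sum]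
  refine sum_congr rfl fun m _ => ?_
  rw [map_mul, map_mul, map_pow, map_pow, eval_C, eval_monX, eval_monX]
  field_simp

/-- the relations hold on the fibres, complex parameters -/
lemma evs_fib {ss : σ → ℂ} {zs : Fin n → ℂ} (hz0 : ∀ i, zs i ≠ 0)
    {H : MvPolynomial (Fin 2) (MvPolynomial σ ℤ)} {a b : Fin n → ℤ}
    (h : evs ss H (∏ i, zs i ^ a i) (∏ i, zs i ^ b i) = 0) {s : σ → ℂ} {z : Fin n → ℂ} (hz : z ∈ fib ss zs s)
    (hz2 : ∀ i, z i = 0 → 0 ≤ a i ∧ 0 ≤ b i) : evs s H (∏ i, z i ^ a i) (∏ i, z i ^ b i) = 0 := by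
  have h1 := hz (numerS H a b) (by
    rw [aeval_numerS ss H a b (fun i hi => absurd hi (hz0 i)), h, mul_zero])
  rw [aeval_numerS _ H a b hz2] at h1
  refine (mul_eq_zero.1 h1).resolve_left ?_
  rw [← ne_eq, prod_ne_zero_iff]
  intro i _
  by_cases h0 : z i = 0
  · obtain ⟨ha, hb⟩ := hz2 i h0
    have hden : den H.totalDegree a b i = 0 := by
      unfold den
      rw [Int.toNat_of_nonpos (by linarith), Int.toNat_of_nonpos (by linarith)]
      simp
    rw [hden, pow_zero]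
    exact one_ne_zero
  · exact pow_ne_zero _ h0

lemma v_zpow_le {z : ℂ} {a : ℤ} (h1 : v z < 1 → 0 ≤ a) (h2 : 1 < v z → a ≤ 0) : v (z ^ a) ≤ 1 := by
  rw [map_zpow₀]
  rcases lt_trichotomy (v z) 1 with h | h | h
  · obtain ⟨k, hk⟩ := Int.eq_ofNat_of_zero_le (h1 h)
    rw [hk, zpow_natCast]
    exact pow_le_one₀ (v.nonneg _) h.le
  · rw [h, one_zpow]
  · exact zpow_le_one_of_nonpos₀ h.le (h2 h)

lemma v_prod_le {z : Fin n → ℂ} {a : Fin n → ℤ} (h1 : ∀ i, v (z i) < 1 → 0 ≤ a i)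
    (h2 : ∀ i, 1 < v (z i) → a i ≤ 0) : v (∏ i, z i ^ a i) ≤ 1 := by
  rw [map_prod]
  exact prod_le_one (fun i _ => v.nonneg _) fun i _ => v_zpow_le (h1 i) (h2 i)

lemma v_evs_sub_le (hv : IsNonarchimedean v) (H : MvPolynomial (Fin 2) (MvPolynomial σ ℤ)) {s₀ s : σ → ℂ} {r : ℝ}
    (hr : 0 ≤ r) (h : ∀ F : MvPolynomial σ ℤ, v (aeval s₀ F - aeval s F) ≤ r) {x y : ℂ} (hx : v x ≤ 1) (hy : v y ≤ 1) :
    v (evs s₀ H x y - evs s H x y) ≤ r := by
  classical
  rw [evs_eq_sum, evs_eq_sum, ← sum_sub_distrib]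
  refine (Finset.induction_on H.support (motive := fun T => v (∑ m ∈ T,
    (aeval s₀ (H.coeff m) * x ^ m 0 * y ^ m 1 - aeval s (H.coeff m) * x ^ m 0 * y ^ m 1)) ≤ r) ?_ ?_)
  · rw [sum_empty, map_zero]; exact hr
  · intro m T hm ih
    rw [sum_insert hm]
    refine (hv _ _).trans (max_le ?_ ih)
    have e : aeval s₀ (H.coeff m) * x ^ m 0 * y ^ m 1 - aeval s (H.coeff m) * x ^ m 0 * y ^ m 1 =
        (aeval s₀ (H.coeff m) - aeval s (H.coeff m)) * (x ^ m 0 * y ^ m 1) := by ring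
    rw [e, map_mul, map_mul, map_pow, map_pow]
    refine (mul_le_of_le_one_right (v.nonneg _) ?_).trans (h _)
    exact mul_le_one₀ (pow_le_one₀ (v.nonneg _) hx) (pow_nonneg (v.nonneg _) _) (pow_le_one₀ (v.nonneg _) hy)

/-- the relations of a family, with one polynomial `P` for all exponents in `{-1, 0, 1}` -/
lemma family_rel [Countable σ] {ss : σ → ℂ} {zs : Fin n → ℂ} (hF : Family ss zs) :
    ∃ P : MvPolynomial σ ℤ, P ≠ 0 ∧ ∀ (s₀ : σ → ℤ) (p : ℕ), p.Prime → ¬ (p : ℤ) ∣ eval s₀ P →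
      ∀ v : AbsoluteValue ℂ ℝ, IsNonarchimedean v → v (p : ℂ) < 1 →
        (∀ s : σ → ℂ, (∀ κ, v (s κ - s₀ κ) < 1) → ∀ z ∈ fib ss zs s, ∀ i j, i ≠ j → v (z i) = 1 ∨ v (z j) = 1) ∧
        ∀ a b : Fin n → ℤ, (∀ i, |a i| ≤ 1) → (∀ i, |b i| ≤ 1) →
          (∀ s t : ℤ, (∀ i, s * a i + t * b i = 0) → s = 0 ∧ t = 0) →
            ∃ H : MvPolynomial (Fin 2) (MvPolynomial σ ℤ), evs ss H (∏ i, zs i ^ a i) (∏ i, zs i ^ b i) = 0 ∧
              GoodRel v p (map (eval s₀) H) := by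
  classical
  have hG := genRel_of_family hF
  have hz0 : ∀ i, zs i ≠ 0 := fun i h => hF.tr i (h ▸ isAlgebraic_zero)
  obtain ⟨P₀, hP₀, hcor⟩ := hF.corner
  -- one pair of exponents
  have key : ∀ a b : Fin n → ℤ, ∃ P : MvPolynomial σ ℤ, P ≠ 0 ∧
      ((∀ s t : ℤ, (∀ i, s * a i + t * b i = 0) → s = 0 ∧ t = 0) →
        ∃ H : MvPolynomial (Fin 2) (MvPolynomial σ ℤ), evs ss H (∏ i, zs i ^ a i) (∏ i, zs i ^ b i) = 0 ∧
          ∀ (s : σ → ℤ) (p : ℕ), p.Prime → ¬ (p : ℤ) ∣ eval s P → ∀ v : AbsoluteValue ℂ ℝ,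
            IsNonarchimedean v → v (p : ℂ) < 1 → GoodRel v p (map (eval s) H)) := by
    intro a b
    by_cases hab : ∀ s t : ℤ, (∀ i, s * a i + t * b i = 0) → s = 0 ∧ t = 0
    · obtain ⟨H, hH, h0, h1, hxy, hK⟩ := hG.rel a b hab
      have hx0 : ∏ i, zs i ^ a i ≠ 0 := prod_ne_zero_iff.2 fun i _ => zpow_ne_zero _ (hz0 i)
      have hy0 : ∏ i, zs i ^ b i ≠ 0 := prod_ne_zero_iff.2 fun i _ => zpow_ne_zero _ (hz0 i)
      have hnc : NoCosetGen ss H := by
        refine noCosetGen_of hF.indep hx0 hy0 hxy (fun s t hst => ?_) hK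
        obtain ⟨k, hk⟩ : ∃ k, s * a k + t * b k ≠ 0 := by
          by_contra hcon
          push Not at hcon
          obtain ⟨h2, h3⟩ := hab s t hcon
          rcases hst with h | h
          · exact h h2
          · exact h h3
        have h2 := hG.tr (fun i => s * a i + t * b i) k hk
        have h3 : ∏ i, zs i ^ (s * a i + t * b i) = (∏ i, zs i ^ a i) ^ s * (∏ i, zs i ^ b i) ^ t := by
          rw [← prod_zpow, ← prod_zpow, ← prod_mul_distrib]
          refine prod_congr rfl fun i _ => ?_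
          rw [zpow_add₀ (hz0 i), mul_comm s, mul_comm t, zpow_mul, zpow_mul]
        rwa [h3] at h2
      obtain ⟨P, hP, h2⟩ := spread hF.indep hH h0 h1 hnc
      exact ⟨P, hP, fun _ => ⟨H, hxy, h2⟩⟩
    · exact ⟨1, one_ne_zero, fun h => absurd h hab⟩
  choose P hP hkey using key
  set T : Finset (Fin n → ℤ) := Fintype.piFinset fun _ => Finset.Icc (-1) 1 with hT
  refine ⟨P₀ * ∏ q ∈ T ×ˢ T, P q.1 q.2, mul_ne_zero hP₀ (prod_ne_zero_iff.2 fun q _ => hP _ _), ?_⟩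
  intro s₀ p hp hpP v hv hvp
  have hp0 : (p : ℂ) ≠ 0 := by exact_mod_cast hp.ne_zero
  rw [map_mul] at hpP
  have h1 : ¬ (p : ℤ) ∣ eval s₀ P₀ := fun h => hpP (h.mul_right _)
  have h2 : ¬ (p : ℤ) ∣ eval s₀ (∏ q ∈ T ×ˢ T, P q.1 q.2) := fun h => hpP (h.mul_left _)
  refine ⟨fun s hs1 z hz => hcor v hv _ z hz (fun κ => ?_) ?_, ?_⟩
  · rw [show s κ = (s κ - s₀ κ) + s₀ κ by ring]
    exact (hv _ _).trans (max_le (hs1 κ).le hv.apply_intCast_le_one)
  · have h3 := v_aeval_int hv hp hvp h1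
    have h4 : aeval (fun κ => (s₀ κ : ℂ)) P₀ = ((eval s₀ P₀ : ℤ) : ℂ) := by
      rw [aeval_def, ← eval₂_id]
      have := hom_eval₂ P₀ (RingHom.id ℤ) (algebraMap ℤ ℂ) s₀
      rw [RingHom.comp_id] at this
      exact this.symm
    rw [h4] at h3
    exact aeval_near_unit hv hs1 h3
  intro a b ha hb hab
  obtain ⟨H, hH, hgood⟩ := hkey a b hab
  have hmem : (a, b) ∈ T ×ˢ T := by
    rw [mem_product, hT, Fintype.mem_piFinset, Fintype.mem_piFinset]
    exact ⟨fun i => mem_Icc.2 (abs_le.1 (ha i)), fun i => mem_Icc.2 (abs_le.1 (hb i))⟩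
  exact ⟨H, hH, hgood s₀ p hp (fun h => h2 (h.trans (map_dvd (eval s₀)
    (Finset.dvd_prod_of_mem (fun q : (Fin n → ℤ) × (Fin n → ℤ) => P q.1 q.2) hmem)))) v hv hvp⟩

lemma near_facts (hv : IsNonarchimedean v) {r : ℝ} (hr0 : 0 ≤ r) (hr : r < 1)
    {s : σ → ℂ} {s₀ : σ → ℤ} (hs : ∀ κ, v (s κ - s₀ κ) ≤ r) :
    (∀ κ, v (s κ - s₀ κ) < 1) ∧ ∀ F : MvPolynomial σ ℤ, v (aeval (fun κ => (s₀ κ : ℂ)) F - aeval s F) ≤ r := by
  have hs1 : ∀ κ, v (s κ - s₀ κ) < 1 := fun κ => (hs κ).trans_lt hr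
  refine ⟨hs1, fun F => ?_⟩
  refine v_aeval_sub_le hv F (fun κ => hv.apply_intCast_le_one) (fun κ => ?_) hr0 fun κ => ?_
  · rw [show s κ = (s κ - s₀ κ) + s₀ κ by ring]
    exact (hv _ _).trans (max_le (hs1 κ).le hv.apply_intCast_le_one)
  · rw [← v.map_neg, neg_sub]
    exact hs κ

/-- **the fibres of a family are good** for all parameters near to integral ones -/
theorem family_near [Countable σ] {ss : σ → ℂ} {zs : Fin n → ℂ} (hF : Family ss zs) :
    ∃ P : MvPolynomial σ ℤ, P ≠ 0 ∧ ∀ (s₀ : σ → ℤ) (p : ℕ), p.Prime → ¬ (p : ℤ) ∣ eval s₀ P →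
      ∀ v : AbsoluteValue ℂ ℝ, IsNonarchimedean v → v (p : ℂ) < 1 →
        ∀ s : σ → ℂ, (∀ κ, v (s κ - s₀ κ) ≤ v (p : ℂ)) → LocalNear v p (fib ss zs s) := by
  classical
  have hz0 : ∀ i, zs i ≠ 0 := fun i h => hF.tr i (h ▸ isAlgebraic_zero)
  obtain ⟨P, hP, hrel⟩ := family_rel hF
  refine ⟨P, hP, ?_⟩
  intro s₀ p hp hpP v hv hvp s hs
  have hp0 : (p : ℂ) ≠ 0 := by exact_mod_cast hp.ne_zero
  have hvp0 : 0 < v (p : ℂ) := (AbsoluteValue.pos_iff v).2 hp0
  obtain ⟨hs1, hdiff⟩ := near_facts hv hvp0.le hvp hs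
  obtain ⟨hcor, hrel⟩ := hrel s₀ p hp hpP v hv hvp
  refine ⟨hcor s hs1, ?_⟩
  intro a b ha hb hab
  obtain ⟨H, hH, hgood'⟩ := hrel a b ha hb hab
  refine ⟨map (eval s₀) H, errW p H (fun κ => (s₀ κ : ℂ)) s a b, hgood', ?_, ?_, ?_, ?_⟩
  · intro z hz hz1 hz2 hz3
    have h3 := evs_fib hz0 hH hz hz1
    rw [ev_map]
    have h4 := v_evs_sub_le hv H hvp0.le hdiff (v_prod_le (fun i hi => (hz2 i hi).1) fun i hi => (hz3 i hi).1)
      (v_prod_le (fun i hi => (hz2 i hi).2) fun i hi => (hz3 i hi).2)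
    rw [h3, sub_zero] at h4
    exact h4
  · have h3 : errW p H (fun κ => (s₀ κ : ℂ)) s a b ∈ intPoly hv (Fin n ⊕ Fin n) := by
      refine sum_mem fun m _ => mul_mem (mul_mem (C_mem_intPoly ?_) (pow_mem (monX_mem a) _)) (pow_mem (monX_mem b) _)
      rw [map_div₀]
      exact (div_le_one hvp0).2 (hdiff _)
    exact h3
  · intro i hai hbi
    have h3 : errW p H (fun κ => (s₀ κ : ℂ)) s a b ∈ supported ℂ (vset a b) := by
      refine sum_mem fun m _ => mul_mem (mul_mem (Subalgebra.algebraMap_mem _ _) (pow_mem (monX_supported ?_) _))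
        (pow_mem (monX_supported ?_) _)
      · exact fun i h _ => h
      · exact fun i _ h => h
    rw [mem_supported] at h3
    exact ⟨fun h => h3 (Finset.mem_coe.2 h) i (Or.inl rfl) ⟨hai, hbi⟩,
      fun h => h3 (Finset.mem_coe.2 h) i (Or.inr rfl) ⟨hai, hbi⟩⟩
  · intro z hz hz1
    have h3 : evs s H (∏ i, z i ^ a i) (∏ i, z i ^ b i) = 0 := by
      refine evs_fib hz0 hH hz fun i hi => ?_
      rcases hz1 i with h | h
      · rw [hi, map_zero] at h
        exact absurd h zero_ne_one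
      · rw [h.1, h.2]
        exact ⟨le_rfl, le_rfl⟩
    rw [eval_errW hp0, h3, sub_zero, ev_map, sub_self, map_zero]
    exact hvp0

/-- **the union of the fibres** over the parameters near to an integral one is good -/
theorem family_class [Countable σ] {ss : σ → ℂ} {zs : Fin n → ℂ} (hF : Family ss zs) :
    ∃ P : MvPolynomial σ ℤ, P ≠ 0 ∧ ∀ (s₀ : σ → ℤ) (p : ℕ), p.Prime → ¬ (p : ℤ) ∣ eval s₀ P →
      ∀ v : AbsoluteValue ℂ ℝ, IsNonarchimedean v → v (p : ℂ) < 1 →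
        LocalNear v p {z | ∃ s : σ → ℂ, (∀ κ, v (s κ - s₀ κ) ≤ v (p : ℂ) ^ 2) ∧ z ∈ fib ss zs s} := by
  classical
  have hz0 : ∀ i, zs i ≠ 0 := fun i h => hF.tr i (h ▸ isAlgebraic_zero)
  obtain ⟨P, hP, hrel⟩ := family_rel hF
  refine ⟨P, hP, ?_⟩
  intro s₀ p hp hpP v hv hvp
  have hp0 : (p : ℂ) ≠ 0 := by exact_mod_cast hp.ne_zero
  have hvp0 : 0 < v (p : ℂ) := (AbsoluteValue.pos_iff v).2 hp0
  have hvp2 : v (p : ℂ) ^ 2 < v (p : ℂ) := by
    rw [sq]; exact mul_lt_of_lt_one_left hvp0 hvp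
  obtain ⟨hcor, hrel⟩ := hrel s₀ p hp hpP v hv hvp
  refine ⟨?_, ?_⟩
  · rintro z ⟨s, hs, hz⟩
    exact hcor s (near_facts hv (by positivity) (hvp2.trans hvp) hs).1 z hz
  intro a b ha hb hab
  obtain ⟨H, hH, hgood'⟩ := hrel a b ha hb hab
  refine ⟨map (eval s₀) H, 0, hgood', ?_, ?_, ?_, ?_⟩
  · rintro z ⟨s, hs, hz⟩ hz1 hz2 hz3
    have h3 := evs_fib hz0 hH hz hz1
    rw [ev_map]
    have h4 := v_evs_sub_le hv H (by positivity) (near_facts hv (by positivity) (hvp2.trans hvp) hs).2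
      (v_prod_le (fun i hi => (hz2 i hi).1) fun i hi => (hz3 i hi).1)
      (v_prod_le (fun i hi => (hz2 i hi).2) fun i hi => (hz3 i hi).2)
    rw [h3, sub_zero] at h4
    exact h4.trans hvp2.le
  · intro m
    rw [coeff_zero, map_zero]
    exact zero_le_one
  · intro i _ _
    rw [vars_0]
    exact ⟨Finset.notMem_empty _, Finset.notMem_empty _⟩
  · rintro z ⟨s, hs, hz⟩ hz1
    have hz2 : ∀ i, z i = 0 → 0 ≤ a i ∧ 0 ≤ b i := by
      intro i hi
      rcases hz1 i with h | h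
      · rw [hi, map_zero] at h
        exact absurd h zero_ne_one
      · rw [h.1, h.2]
        exact ⟨le_rfl, le_rfl⟩
    have h3 := evs_fib hz0 hH hz hz2
    have hle : ∀ c : Fin n → ℤ, (∀ i, a i = 0 ∧ b i = 0 → c i = 0) → v (∏ i, z i ^ c i) ≤ 1 := by
      intro c hc
      refine v_prod_le (fun i hi => ?_) fun i hi => ?_
      · rcases hz1 i with h | h
        · exact absurd hi (by rw [h]; exact lt_irrefl _)
        · rw [hc i h]
      · rcases hz1 i with h | h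
        · exact absurd hi (by rw [h]; exact lt_irrefl _)
        · rw [hc i h]
    rw [map_zero, mul_zero, sub_zero, ev_map]
    have h4 := v_evs_sub_le hv H (by positivity) (near_facts hv (by positivity) (hvp2.trans hvp) hs).2
      (hle a fun i h => h.1) (hle b fun i h => h.2)
    rw [h3, sub_zero] at h4
    exact h4.trans_lt hvp2

end Pool.Agent.Helper81.AA
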